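import Pool.Agent.Q145.LZ.Stm
import Pool.Agent.Q111.SZ.PWB
import Pool.Agent.W37.RK.BL1

/-!
# Project LZ (helper145), job EXZ: for most pairs `(A, B)` few pairs are exceptional
-/

set_option autoImplicit false

namespace Pool.Agent.Q143.LZ

open Finset Filter
open Pool.Agent.Q145.SZ

/-- the quadruples -/
def quad (T Y : ℕ) (D : Finset ℕ) : Finset (Σ _ : ℕ × ℕ, ℕ × ℕ) :=
  ((Icc 1 T ×ˢ Icc 1 T).filter fun x : ℕ × ℕ => x.2 ≤ x.1).sigma fun x =>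
    (Ioc Y (2 * Y) ×ˢ Ioc Y (2 * Y)).filter fun y : ℕ × ℕ =>
      x.1 * dst y.1 y.2 * (x.1 * (y.1 + y.2) + 2 * x.2) ∈ D

/-- the injection -/
def code (w : Σ _ : ℕ × ℕ, ℕ × ℕ) : Σ _ : ℕ, (ℕ × ℕ) × (ℕ × ℕ) :=
  ⟨w.1.1 * dst w.2.1 w.2.2 * (w.1.1 * (w.2.1 + w.2.2) + 2 * w.1.2),
    ((w.1.1, dst w.2.1 w.2.2), (if w.2.2 < w.2.1 then 1 else 0, (w.2.1 + w.2.2) % 2))⟩

theorem code_inj_aux {A B n m A' B' n' m' : ℕ} (hB : 1 ≤ B) (hBA : B ≤ A) (hB' : 1 ≤ B')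
    (hBA' : B' ≤ A') (hA : A = A') (hu : dst n m = dst n' m')
    (h : A * dst n m * (A * (n + m) + 2 * B) = A' * dst n' m' * (A' * (n' + m') + 2 * B'))
    (h0 : A * dst n m * (A * (n + m) + 2 * B) ≠ 0)
    (hf : (if m < n then 1 else 0) = (if m' < n' then 1 else 0)) (hp : (n + m) % 2 = (n' + m') % 2) :
    B = B' ∧ n = n' ∧ m = m' := by
  subst hA
  rw [← hu] at h
  have hAu : 0 < A * dst n m := Nat.pos_of_ne_zero fun h1 => h0 (by rw [h1, Nat.zero_mul])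
  have h1 : A * (n + m) + 2 * B = A * (n' + m') + 2 * B' := Nat.eq_of_mul_eq_mul_left hAu h
  have hs : n + m = n' + m' := by
    rcases lt_trichotomy (n + m) (n' + m') with hlt | heq | hgt
    · exfalso
      have h2 : n + m + 2 ≤ n' + m' := by omega
      have h3 : A * (n + m + 2) ≤ A * (n' + m') := Nat.mul_le_mul_left A h2
      have h4 : A * (n + m + 2) = A * (n + m) + 2 * A := by ring
      omega
    · exact heq
    · exfalso
      have h2 : n' + m' + 2 ≤ n + m := by omega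
      have h3 : A * (n' + m' + 2) ≤ A * (n + m) := Nat.mul_le_mul_left A h2
      have h4 : A * (n' + m' + 2) = A * (n' + m') + 2 * A := by ring
      omega
  have hBB : B = B' := by
    rw [hs] at h1
    omega
  refine ⟨hBB, ?_⟩
  unfold dst at hu
  split_ifs at hf <;> omega

theorem card_quad_le (T Y : ℕ) (D : Finset ℕ) (h0 : 0 ∉ D) :
    (quad T Y D).card ≤ ∑ h ∈ D, 4 * h.divisors.card ^ 2 := by
  classical
  have h1 : (quad T Y D).card ≤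
      (D.sigma fun h => (h.divisors ×ˢ h.divisors) ×ˢ (range 2 ×ˢ range 2)).card := by
    apply card_le_card_of_injOn code
    · intro w hw
      obtain ⟨⟨A, B⟩, ⟨n, m⟩⟩ := w
      rw [mem_coe, quad, mem_sigma, mem_filter, mem_filter] at hw
      obtain ⟨⟨h1, h2⟩, h3, h4⟩ := hw
      have hne : A * dst n m * (A * (n + m) + 2 * B) ≠ 0 := fun h => h0 (h ▸ h4)
      rw [mem_coe, mem_sigma, mem_product, mem_product, mem_product]
      refine ⟨h4, ⟨Nat.mem_divisors.2 ⟨⟨dst n m * (A * (n + m) + 2 * B), ?_⟩, hne⟩,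
        Nat.mem_divisors.2 ⟨⟨A * (A * (n + m) + 2 * B), ?_⟩, hne⟩⟩, ?_, ?_⟩
      · show A * dst n m * (A * (n + m) + 2 * B) = A * (dst n m * (A * (n + m) + 2 * B))
        ring
      · show A * dst n m * (A * (n + m) + 2 * B) = dst n m * (A * (A * (n + m) + 2 * B))
        ring
      · show (if m < n then 1 else 0) ∈ range 2
        rw [mem_range]
        split_ifs <;> omega
      · show (n + m) % 2 ∈ range 2
        rw [mem_range]
        omega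
    · rintro ⟨⟨A, B⟩, ⟨n, m⟩⟩ hw ⟨⟨A', B'⟩, ⟨n', m'⟩⟩ hw' heq
      rw [mem_coe, quad, mem_sigma, mem_filter, mem_filter, mem_product, mem_Icc, mem_Icc] at hw hw'
      obtain ⟨⟨⟨h1, h2⟩, h3⟩, h4, h5⟩ := hw
      obtain ⟨⟨⟨h1', h2'⟩, h3'⟩, h4', h5'⟩ := hw'
      simp only [code, Sigma.mk.injEq, heq_eq_eq, Prod.mk.injEq] at heq
      obtain ⟨e1, ⟨e2, e3⟩, e4, e5⟩ := heq
      have hne : A * dst n m * (A * (n + m) + 2 * B) ≠ 0 := fun h => h0 (h ▸ h5)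
      obtain ⟨r1, r2, r3⟩ := code_inj_aux h2.1 h3 h2'.1 h3' e2 e3 e1 hne e4 e5
      have r1' : B = B' := r1
      subst e2 r1' r2 r3
      rfl
  refine h1.trans (le_of_eq ?_)
  rw [card_sigma]
  refine sum_congr rfl fun h _ => ?_
  rw [card_product, card_product, card_product, card_range]
  ring

/-- the second moment of the number of divisors over a small set -/
theorem tau_sq_le {X : ℕ} {D : Finset ℕ} {W : ℝ} {k : ℕ} (hX : 1 ≤ X) (hW : 1 ≤ W) (hD : D ⊆ Icc 1 X)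
    (hc : (D.card : ℝ) ≤ (X : ℝ) / W ^ (2 * k)) :
    ∑ h ∈ D, (h.divisors.card : ℝ) ^ 2 ≤ X * (1 + Real.log X) ^ 8 / W ^ k := by
  have hW0 : 0 < W := by linarith
  have hL0 : 0 ≤ Real.log X := Real.log_natCast_nonneg X
  have h1 : (∑ h ∈ D, (h.divisors.card : ℝ) ^ 2) ^ 2 ≤
      D.card * ∑ h ∈ D, ((h.divisors.card : ℝ) ^ 2) ^ 2 := sq_sum_le_card_mul_sum_sq
  have h2 : ∑ h ∈ D, ((h.divisors.card : ℝ) ^ 2) ^ 2 ≤ X * (1 + Real.log X) ^ 16 := by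
    calc ∑ h ∈ D, ((h.divisors.card : ℝ) ^ 2) ^ 2 ≤ ∑ h ∈ Icc 1 X, ((h.divisors.card : ℝ) ^ 2) ^ 2 :=
          sum_le_sum_of_subset_of_nonneg hD fun _ _ _ => by positivity
      _ = ∑ h ∈ Icc 1 X, (h.divisors.card : ℝ) ^ 4 := by
          refine sum_congr rfl fun h _ => ?_
          rw [← pow_mul]
      _ ≤ X * (1 + Real.log X) ^ (2 ^ 4) := W37.RK.sum_card_pow 4 X
      _ = _ := by norm_num
  have h3 : (∑ h ∈ D, (h.divisors.card : ℝ) ^ 2) ^ 2 ≤ (X * (1 + Real.log X) ^ 8 / W ^ k) ^ 2 := by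
    calc (∑ h ∈ D, (h.divisors.card : ℝ) ^ 2) ^ 2
        ≤ ((X : ℝ) / W ^ (2 * k)) * (X * (1 + Real.log X) ^ 16) := by
          refine h1.trans ?_
          gcongr
      _ = (X * (1 + Real.log X) ^ 8 / W ^ k) ^ 2 := by
          rw [div_pow, mul_pow, ← pow_mul, ← pow_mul, mul_comm k 2]
          ring
  exact le_of_sq_le_sq h3 (by positivity)

theorem exz : Pool.Agent.Q145.LZ.S_EXZ := by
  intro a₀ ε hε
  obtain ⟨z₁, hz₁⟩ := Pool.Agent.Q111.SZ.t_PWB.2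
  have p1 : 0 < 12288 / ε := by positivity
  have p2 : (0 : ℝ) ≤ z₁ := by positivity
  refine ⟨64 + 12288 / ε + z₁, by linarith, ?_⟩
  intro z T Y D hX hz hzX hzY hD hDc
  set X : ℕ := 12 * T ^ 2 * Y ^ 2 with hXdef
  set L := Real.log (X : ℝ) with hL
  set l := Real.log L with hl
  have hl64 : 64 ≤ l := by linarith
  have hL0 : 0 < L := by
    by_contra hc
    have hL0' : 0 ≤ L := Real.log_natCast_nonneg X
    have : L = 0 := le_antisymm (not_lt.1 hc) hL0'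
    rw [hl, this, Real.log_zero] at hl64
    linarith
  have hlL : l ≤ L := by
    have := Real.log_le_sub_one_of_pos hL0
    linarith
  have hL1 : 1 ≤ L := by linarith
  have hX0 : X ≠ 0 := by
    intro h
    rw [hL, h] at hL0
    simp at hL0
  have hX1 : 1 ≤ X := Nat.one_le_iff_ne_zero.2 hX0
  have hY0 : 0 < (Y : ℝ) := by
    rcases Nat.eq_zero_or_pos Y with h | h
    · exact absurd (by rw [hXdef, h]; ring) hX0
    · exact_mod_cast h
  have hz1 : z₁ ≤ z := by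
    have : (z₁ : ℝ) ≤ z := by linarith
    exact_mod_cast this
  have hW := hz₁ z hz1
  set W : ℝ := (PW z : ℝ) with hWd
  have hLW : L ^ 32 ≤ W := by
    calc L ^ 32 = Real.exp (32 * l) := by
          rw [hl, show (32 : ℝ) = ((32 : ℕ) : ℝ) by norm_num, Real.exp_nat_mul, Real.exp_log hL0]
      _ ≤ Real.exp ((z : ℝ) / 2) := Real.exp_le_exp.2 (by linarith)
      _ ≤ W := hW
  have hW1 : 1 ≤ W := (one_le_pow₀ hL1).trans hLW
  have hW0 : 0 < W := by linarith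
  -- the count
  have h0 : 0 ∉ D := fun h => by
    have := hD h
    rw [mem_Icc] at this
    omega
  have hq : ((quad T Y D).card : ℝ) ≤ 4 * (X * (1 + L) ^ 8 / W ^ (2 * a₀ + 22)) := by
    have h1 : ((quad T Y D).card : ℝ) ≤ ∑ h ∈ D, 4 * (h.divisors.card : ℝ) ^ 2 := by
      have := card_quad_le T Y D h0
      exact_mod_cast this
    rw [← mul_sum] at h1
    refine h1.trans (mul_le_mul_of_nonneg_left ?_ (by norm_num))
    refine tau_sq_le hX1 hW1 hD ?_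
    rw [show 2 * (2 * a₀ + 22) = 4 * a₀ + 44 by ring]
    exact hDc
  -- the bad pairs
  set c : ℕ × ℕ → ℕ := fun x => ((Ioc Y (2 * Y) ×ˢ Ioc Y (2 * Y)).filter fun y : ℕ × ℕ =>
      x.1 * dst y.1 y.2 * (x.1 * (y.1 + y.2) + 2 * x.2) ∈ D).card with hc
  set Bd := (Icc 1 T ×ˢ Icc 1 T).filter fun x : ℕ × ℕ => x.2 ≤ x.1 ∧
    ¬ ((c x : ℝ) ≤ (Y : ℝ) ^ 2 / W ^ (2 * (a₀ + 8))) with hBd
  show ((Bd.card : ℕ) : ℝ) ≤ ε * (T : ℝ) ^ 2
  have hpos : 0 < (Y : ℝ) ^ 2 / W ^ (2 * (a₀ + 8)) := by positivity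
  have hb : (Bd.card : ℝ) * ((Y : ℝ) ^ 2 / W ^ (2 * (a₀ + 8))) ≤ ((quad T Y D).card : ℝ) := by
    have e : ((quad T Y D).card : ℝ) = ∑ x ∈ (Icc 1 T ×ˢ Icc 1 T).filter (fun x : ℕ × ℕ => x.2 ≤ x.1), (c x : ℝ) := by
      rw [quad, card_sigma]
      push_cast
      rfl
    rw [e]
    calc (Bd.card : ℝ) * ((Y : ℝ) ^ 2 / W ^ (2 * (a₀ + 8))) = ∑ _x ∈ Bd, (Y : ℝ) ^ 2 / W ^ (2 * (a₀ + 8)) := by
          rw [sum_const, nsmul_eq_mul]
      _ ≤ ∑ x ∈ Bd, (c x : ℝ) := sum_le_sum fun x hx => (not_le.1 (mem_filter.1 hx).2.2).le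
      _ ≤ _ := by
          refine sum_le_sum_of_subset_of_nonneg ?_ fun x _ _ => Nat.cast_nonneg _
          intro x hx
          rw [hBd, mem_filter] at hx
          exact mem_filter.2 ⟨hx.1, hx.2.1⟩
  have h2 := hb.trans hq
  rw [← le_div_iff₀ hpos] at h2
  refine h2.trans ?_
  have hεL : 12288 ≤ ε * L := by
    have : 12288 / ε ≤ L := by linarith
    rw [div_le_iff₀ hε] at this
    linarith
  have hLW9 : L ^ 9 ≤ W ^ 6 := by
    calc L ^ 9 ≤ L ^ 32 := pow_le_pow_right₀ hL1 (by norm_num)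
      _ ≤ W := hLW
      _ = W ^ 1 := (pow_one W).symm
      _ ≤ W ^ 6 := pow_le_pow_right₀ hW1 (by norm_num)
  have hXc : (X : ℝ) = 12 * (T : ℝ) ^ 2 * (Y : ℝ) ^ 2 := by rw [hXdef]; push_cast; ring
  calc 4 * (X * (1 + L) ^ 8 / W ^ (2 * a₀ + 22)) / ((Y : ℝ) ^ 2 / W ^ (2 * (a₀ + 8)))
      ≤ 4 * (X * (L + L) ^ 8 / W ^ (2 * a₀ + 22)) / ((Y : ℝ) ^ 2 / W ^ (2 * (a₀ + 8))) := by gcongr
    _ = 12288 * (T : ℝ) ^ 2 * L ^ 8 / W ^ 6 := by
        rw [show 2 * a₀ + 22 = 2 * (a₀ + 8) + 6 by ring, pow_add, hXc]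
        field_simp
        ring
    _ ≤ (ε * L) * (T : ℝ) ^ 2 * L ^ 8 / W ^ 6 := by gcongr
    _ = ε * (T : ℝ) ^ 2 * (L ^ 9 / W ^ 6) := by ring
    _ ≤ ε * (T : ℝ) ^ 2 * 1 := by
        gcongr
        exact (div_le_one (by positivity)).2 hLW9
    _ = ε * (T : ℝ) ^ 2 := mul_one _

end Pool.Agent.Q143.LZ
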